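import Pool.Agent.W2helper27.OP.Main

/-!
# Ordinary primes depend only on the semisimple part of the monodromy

`K₀` is a number field and `R` a motive over `K₀`, a summand of a motive which realises the intersection
cohomology `H_ℓ`; `R ℓ'` is its `ℓ'`-adic realisation, for all primes `ℓ'`. Over a finite extension `K` of
`K₀` it is a direct sum of `m i` copies of motives `A i` with multiplication by totally real or CM fields
`(A i).E` defined over `K`. Some of the multiplicities `m i` may be zero: the `A i` with `m i = 0` are
auxiliary motives. The parts of `A i` are the `ℓ`-adic representations of rank `n` over `ℚ̄_ℓ` given by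
the embeddings of `(A i).E` into `ℚ̄_ℓ`. Let `g` be the Lie algebra of the `ℓ`-adic monodromy group, that
is of the Zariski closure of the image of the absolute Galois group of `K` in the product of the linear
groups of all parts.

Let `V` be a set of indices such that `g` acts on all parts of the `A i` with `i` in `V`, modulo scalars,
through simple Lie algebras, and such that the elements of `g` which act by scalars on all these parts
act by scalars on all parts (`DeterminedBy A V`): the semisimple part of `g` is determined by the `A i`
with `i` in `V`, which may be smaller or larger representations of the same group, or motives of another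
weight. The abelian part of the monodromy is arbitrary. If `V` is empty this means that the monodromy
is potentially abelian.

**Theorem.** (1) Every place of degree one of `K`, outside of the finite set `S` of residue
characteristics, at which all `A i` with `i` in `V` are ordinary, is ordinary for all `A i`.

(2) If the identity satisfies the orbit condition for all `i` in `V` (for every vertex `k` of a Hodge
polygon the total defect, the sum over all embeddings of `w k / 2` minus the Hodge polygon at `k`, is at
most one), then the places of `K` which are ordinary for all `A i` have density one.

(3) If some `γ` in the absolute Galois group of `K` satisfies the orbit condition for all `i` in `V`, then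
the primes of `K₀` at which, for all `ℓ'` and all embeddings `τ` of the field of algebraic numbers into
`ℚ̄_p`, the Newton polygon of `R ℓ'` is the Hodge polygon have positive lower density.

For example `A i`, `i` in `V`, can be motives of K3 type (weight `2`, Hodge numbers `(1, n - 2, 1)` for
one real place of the totally real field `E` and `(0, n, 0)` for the others), or abelian varieties with
multiplication by a CM field of signature `(1, n - 1)` at one place and `(0, n)` at the others; then
the identity satisfies the orbit condition. Then (3) is Q1 for all motives `R` whose monodromy has the
same semisimple part, in arbitrary representations: the Kuga-Satake abelian varieties of motives of K3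
type (the spin representation), the abelian fourfolds of Mumford and their generalisations (tensor
products of the parts of `A i`), all summands of tensor products of these and of motives with complex
multiplication.

Proof. The valuations of the eigenvalues of the Frobenius define an element `N` of `g` (Chevalley), and
the Hodge-Tate weights define an element `H` (Sen). The trace forms of the parts on `g` modulo the
elements acting by scalars are linear combinations of the trace forms of the parts with index in `V`,
because invariant forms on a simple Lie algebra are proportional. Hence if the sums of the squares of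
the Newton and Hodge slopes agree for the `A i` with `i` in `V`, they agree for all `A i`; as the Newton
polygon lies above the Hodge polygon, with the same end point, they are equal.
-/

set_option autoImplicit false

namespace Pool.Agent.Results.MP_0dad22_ag.SemisimplePart

open NumberField IsDedekindDomain Polynomial
open Pool.Agent.W401.Cheb Pool.Agent.W528.Ord Pool.Agent.W2helper27.OP

theorem result (K₀ K : Type) [Field K₀] [NumberField K₀] [Field K] [NumberField K] [Algebra K₀ K]
    (ℓ : ℕ) [Fact ℓ.Prime] {ι : Type} [Fintype ι] (A : ι → MotSystem K ℓ) (m : ι → ℕ)
    (χ : GK K →* (PadicAlgCl ℓ)ˣ) (S : Finset ℕ) (hA : ∀ i, (A i).IsMotive χ S) (hHT : HodgeTate A)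
    (V : Set ι) (hV : DeterminedBy A V) {r : ℕ}
    (R : ∀ (ℓ' : ℕ) [Fact ℓ'.Prime], GK K₀ →* Matrix.GeneralLinearGroup (Fin r) ℚ_[ℓ'])
    (F : HeightOneSpectrum (𝓞 K₀) → Polynomial ℤ) (hR : StrictlyCompatible S R F)
    (hF : ∀ (v₀ : HeightOneSpectrum (𝓞 K₀)) (v : HeightOneSpectrum (𝓞 K)),
      v.asIdeal.comap (algebraMap (𝓞 K₀) (𝓞 K)) = v₀.asIdeal → MultSystem.IsDeg1 S v →
      (F v₀).map (Int.castRingHom (AlgebraicClosure K)) = MotSystem.prodPoly A m v) :
    (∀ v : HeightOneSpectrum (𝓞 K), MultSystem.IsDeg1 S v → (∀ i ∈ V, OrdinaryAt A i v) →
      ∀ i, OrdinaryAt A i v) ∧
    ((∀ i ∈ V, (A i).Admissible 1) →
      1 ≤ lowerDensity fun v : HeightOneSpectrum (𝓞 K) => ∀ i, OrdinaryAt A i v) ∧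
    ((∃ γ : GK K, ∀ i ∈ V, (A i).Admissible γ) →
      0 < lowerDensity (Ordinary R (MotSystem.slopes A m))) :=
  ⟨fun _ hv hord => ordinaryAt_all A hA hHT V hV hv hord,
    fun h1 => density_one A hA hHT V hV h1,
    fun hγ => ordinary_density K₀ K ℓ A m χ S hA hHT V hV R F hR hF hγ⟩

end Pool.Agent.Results.MP_0dad22_ag.SemisimplePart
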