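import Pool.Agent.W2helper6.RT.Main

/-!
# Ordinary primes: the class of motives closed under tensor constructions and their roots

`A i` are finitely many pure motives over the number field `K` with multiplication by totally real or CM
fields, and some element `γ` of the Galois group satisfies the orbit condition `Admissible` for all of
them (the identity will do if the total defects are at most two, as for the `H¹` of elliptic curves and
abelian surfaces and for all motives of K3 type, with any real or complex multiplication).

`Reach A` is the smallest class of motives over `K` (with coefficients in the algebraic closure of `K`; only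
the Frobenius eigenvalues and the Hodge slopes matter) which contains the pieces of the `A i` and the Tate
motive, and such that for every tensor construction `T`, that is a finite family of weights of
`GL (m 1) × ... × GL (m n)` which is invariant under the permutations of the coordinates (for example the
weights of a rational representation):

* if `X 1, ..., X n` belong to the class, then `T (X 1, ..., X n)` belongs to the class;
* if `T (X 1, ..., X n)` belongs to the class, the Newton polygons of all `X k` lie on or above their Hodge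
  polygons (with the same end points) and `T` depends on `X i` not only through the determinant, then `X i` belongs
  to the class.

The second rule contains the passage to direct summands and to tensor factors, and the passage from the
adjoint motive `X ⊗ X^∨`, or any Schur functor of `X`, to `X`.  Examples: a Kuga-Satake variety is in
the class of its motive of K3 type, because `H¹ ⊗ (H¹)^∨` is a sum of exterior powers; the abelian varieties
of Mumford's type, for totally real fields of any degree, are in the class of the motive of K3 type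
`ad` with real multiplication; the same for the abelian fourfolds of Weil type with trivial
discriminant.

Theorem.  Let `R k` be finitely many motives over a subfield `K₀` of `K` (in the problem: summands `e M`
of motives which realise `H_ℓ`) with strictly compatible `ℓ'`-adic realisations, which belong to the class over
`K`.  Then the primes `𝔭` of `K₀` such that, for all `k`, all primes `ℓ'` with `𝔭 ∤ ℓ'` and all embeddings
`τ`, `Newton_τ (Frob_𝔭, R k ℓ') = HP (R k)` have lower density at least the proportion of the admissible
elements divided by `[K : K₀]`, which is positive.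
-/

set_option autoImplicit false

namespace Pool.Agent.Results.MP_0dad22_ag.TensorRoots

open NumberField IsDedekindDomain Polynomial
open Pool.Agent.W401.Cheb Pool.Agent.W528.Ord Pool.Agent.W850.Ord Pool.Agent.W2helper6.RT

/-- The `R ℓ'` are strictly compatible: at the places of degree one outside the finite set `B` of residue
characteristics the characteristic polynomial of the geometric Frobenius element (the inverse of `γ`) is
`F v`. -/
def StrictlyCompatible {K₀ : Type} [Field K₀] [NumberField K₀] (B : Finset ℕ) {r : ℕ}
    (R : ∀ (ℓ' : ℕ) [Fact ℓ'.Prime], GK K₀ →* Matrix.GeneralLinearGroup (Fin r) ℚ_[ℓ'])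
    (F : HeightOneSpectrum (𝓞 K₀) → ℤ[X]) : Prop :=
  ∀ (ℓ' : ℕ) [Fact ℓ'.Prime] (v₀ : HeightOneSpectrum (𝓞 K₀)), MultSystem.IsDeg1 B v₀ →
    Ideal.absNorm v₀.asIdeal ≠ ℓ' → ∀ γ : GK K₀, IsFrob v₀ γ →
      (R ℓ' γ⁻¹ : Matrix (Fin r) (Fin r) ℚ_[ℓ']).charpoly = (F v₀).map (Int.castRingHom ℚ_[ℓ'])

/-- `v₀` has degree one, and for every prime `ℓ'` different from the residue characteristic `p = N v₀`
and every embedding `τ` of the field of algebraic numbers the Newton polygon of `R ℓ'` at `v₀` has the
slopes `H`. -/
def Ordinary {K₀ : Type} [Field K₀] [NumberField K₀] {r : ℕ}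
    (R : ∀ (ℓ' : ℕ) [Fact ℓ'.Prime], GK K₀ →* Matrix.GeneralLinearGroup (Fin r) ℚ_[ℓ'])
    (H : Multiset ℕ) (v₀ : HeightOneSpectrum (𝓞 K₀)) : Prop :=
  ∃ (p : ℕ) (_ : Fact p.Prime), Ideal.absNorm v₀.asIdeal = p ∧
    ∀ (ℓ' : ℕ) [Fact ℓ'.Prime], p ≠ ℓ' → ∀ γ : GK K₀, IsFrob v₀ γ →
      ∀ τ : algebraicClosure ℚ (PadicAlgCl ℓ') →+* PadicAlgCl p,
        NewtonTau (R ℓ' γ⁻¹ : Matrix (Fin r) (Fin r) ℚ_[ℓ']) τ H

theorem result (K₀ K : Type) [Field K₀] [NumberField K₀] [Field K] [NumberField K] [Algebra K₀ K]
    -- the generators, motives with multiplications over `K` with the orbit condition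
    (ℓ : ℕ) [Fact ℓ.Prime] {ι : Type} [Fintype ι] (A : ι → MotSystem K ℓ)
    (χ : GK K →* (PadicAlgCl ℓ)ˣ) (S : ι → Finset ℕ) (hA : ∀ i, (A i).IsMotive χ (S i))
    (hγ : ∃ γ : GK K, ∀ i, (A i).Admissible γ)
    -- the motives `R k` over `K₀`, which belong over `K` to the class generated by the `A i`
    {ν : Type} [Finite ν] (B : Finset ℕ) (r : ν → ℕ)
    (R : ∀ (k : ν) (ℓ' : ℕ) [Fact ℓ'.Prime], GK K₀ →* Matrix.GeneralLinearGroup (Fin (r k)) ℚ_[ℓ'])
    (F : ν → HeightOneSpectrum (𝓞 K₀) → ℤ[X]) (H : ν → Multiset ℕ)
    (hR : ∀ k, StrictlyCompatible B (R k) (F k)) (hF : ∀ k, IsReached A (F k) (H k)) :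
    0 < MotSystem.admProportion A / (Module.finrank K₀ K : ℝ) ∧
    MotSystem.admProportion A / (Module.finrank K₀ K : ℝ) ≤
      lowerDensity fun v₀ : HeightOneSpectrum (𝓞 K₀) => ∀ k, Ordinary (R k) (H k) v₀ := by
  classical
  have : FiniteDimensional K₀ K := Module.Finite.of_restrictScalars_finite ℚ K₀ K
  have hd : (0 : ℝ) < (Module.finrank K₀ K : ℝ) := by exact_mod_cast Module.finrank_pos
  refine ⟨div_pos (MotSystem.admProportion_pos A hγ) hd, ?_⟩
  have := Fintype.ofFinite ν
  choose C hC using fun k => newton_of_reached (K₀ := K₀) A χ S hA (hF k)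
  refine (lower_below (K₀ := K₀) A χ S hA).trans
    (lowerDensity_le_of_finite _ _ (B ∪ Finset.univ.biUnion C) ?_)
  intro v₀ hv₀ hn k
  have h1 : Ideal.absNorm v₀.asIdeal ∉ C k := fun hm =>
    hn (Finset.mem_union_right _ (Finset.mem_biUnion.2 ⟨k, Finset.mem_univ k, hm⟩))
  have h2 : Ideal.absNorm v₀.asIdeal ∉ B := fun hm => hn (Finset.mem_union_left _ hm)
  obtain ⟨hp, hN⟩ := hC k v₀ hv₀ h1
  have hN' := hN
  obtain ⟨hp', -⟩ := hN
  refine ⟨Ideal.absNorm v₀.asIdeal, hp', rfl, ?_⟩
  intro ℓ' _ hne γ hγ τ
  exact newtonTau_of _ τ _ (F k v₀) (hR k ℓ' v₀ ⟨hp, h2⟩ hne γ hγ) hN'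

end Pool.Agent.Results.MP_0dad22_ag.TensorRoots
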